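import Pool.Agent.U738.RG.Defs
import Pool.Agent.U738.SO.BDefs

/-!
# Beilinson's conjecture for the integral part: definitions
-/

set_option autoImplicit false

open CategoryTheory AlgebraicGeometry Pool.Agent.Y116.UV Pool.Agent.U738.SO Pool.Agent.U738.RG

namespace Pool.Agent.U738.RI

universe w

/-- The generic fibre: `G i X = H^{2d-1-i}(X_ℚ, ℚ(d)) ⊗ ℝ`, the restriction `res` from
`M 0 (i + 1) X = H^{2d-1-i}(X, ℚ(d)) ⊗ ℝ`, and the Beilinson regulator `rho` of the generic fibre with
values in `E i X = H^{2d-1-i}_D(X_ℝ, ℝ(d))`. -/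
structure GenericFibre (T : Regulators.{w}) where
  G : ℕ → Sch ℤ → ModuleCat.{w} ℝ
  res : ∀ (i : ℕ) (X : Sch ℤ), T.M 0 (i + 1) X ⟶ G i X
  rho : ∀ (i : ℕ) (X : Sch ℤ), G i X ⟶ T.E i X

/-- The known properties: the regulator of the scheme is the restriction followed by the regulator of the
generic fibre; the groups `CH_0(X) ⊗ ℝ` and its archimedean analogue are zero (`CH_0(X)` is finite), as are
the groups in negative degrees. -/
structure IsGenericFibre {T : Regulators.{w}} (F : GenericFibre T) : Prop where
  comp : ∀ X : Sch ℤ, IsArithmetic X → ∀ i : ℕ, F.res i X ≫ F.rho i X = r T i X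
  zero : ∀ X : Sch ℤ, IsArithmetic X → ∀ i : ℤ, i ≤ 0 →
    Subsingleton (T.M 0 i X) ∧ Subsingleton (T.D 0 i X)

variable {T : Regulators.{w}}

/-- The integral part: the image of the restriction. -/
noncomputable def integralPart (F : GenericFibre T) (i : ℕ) (X : Sch ℤ) : Submodule ℝ (F.G i X) :=
  LinearMap.range (F.res i X).hom

/-- The Beilinson regulator on the integral part. -/
noncomputable def rhoInfinity (F : GenericFibre T) (i : ℕ) (X : Sch ℤ) :
    integralPart F i X →ₗ[ℝ] T.E i X := (F.rho i X).hom.domRestrict (integralPart F i X)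

/-- **Q1 for `X`** (Beilinson): the regulator on the integral part is bijective for `i ≥ 1`, and there is
an exact sequence `0 → M^{2d-1} → D^{2d-1} → ℝ → 0` in degree `i = 0`. -/
def Beilinson (F : GenericFibre T) (X : Sch ℤ) : Prop :=
  (∀ i : ℕ, 1 ≤ i → Function.Bijective (rhoInfinity F i X)) ∧
    ∃ g : T.E 0 X →ₗ[ℝ] ℝ, Function.Injective (rhoInfinity F 0 X) ∧
      Function.Exact (rhoInfinity F 0 X) g ∧ Function.Surjective g

/-- Flach's injectivity: the restriction to the generic fibre is injective. -/
def Flach (F : GenericFibre T) (X : Sch ℤ) : Prop :=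
  ∀ i : ℕ, Function.Injective (F.res i X).hom

/-- The regulators of weight `n` of `X` are isomorphisms. -/
def BijectiveIn (T : Regulators.{w}) (n : ℤ) (X : Sch ℤ) : Prop :=
  ∀ i : ℤ, Function.Bijective (T.reg n i X).hom

/-- The smallest equivalence relation on the separated schemes of finite type over `ℤ` for which isomorphic
schemes are equivalent, `X` is equivalent to an open subscheme `U` if the complement `Z` is in `Built N`,
and to a closed subscheme `Z` if the complement `U` is in `Built N`. -/
inductive Equivalent (N : ℕ) : Sch ℤ → Sch ℤ → Prop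
  | iso {X Y : Sch ℤ} : FT True X → FT True Y → Nonempty (X ≅ Y) → Equivalent N X Y
  | symm {X Y : Sch ℤ} : Equivalent N X Y → Equivalent N Y X
  | trans {X Y W : Sch ℤ} : Equivalent N X Y → Equivalent N Y W → Equivalent N X W
  | opened {Z X U : Sch ℤ} (i : Z ⟶ X) (j : U ⟶ X) : FT True X → IsTriple i j → Built N Z →
      Equivalent N X U
  | closed {Z X U : Sch ℤ} (i : Z ⟶ X) (j : U ⟶ X) : FT True X → IsTriple i j → Built N U →
      Equivalent N X Z

end Pool.Agent.U738.RI
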