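import Pool.Agent.U738.RI.Defs
import Pool.Agent.U738.RG.Main

/-!
# Beilinson's conjecture for the integral part
-/

set_option autoImplicit false

open CategoryTheory AlgebraicGeometry Pool.Agent.Y116.UV Pool.Agent.U738.BN Pool.Agent.U738.CX
  Pool.Agent.U738.SO Pool.Agent.U738.RG

namespace Pool.Agent.U738.RI

universe w

variable {T : Regulators.{w}}

section triple

variable {Z X U : Sch ℤ} {i : Z ⟶ X} {j : U ⟶ X} {n : ℤ}

lemma in_total (h : IsRegulator T) (hX : FT True X) (ht : IsTriple i j)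
    (hZ : BijectiveIn T n Z) (hU : BijectiveIn T n U) : BijectiveIn T n X := by
  intro k
  obtain ⟨S, S', H⟩ := h.localization n i j hX ht
  obtain ⟨m, rfl⟩ : ∃ m, k = m + 1 := ⟨k - 1, by ring⟩
  exact LinearMap.bijective_of_surjective_of_bijective_of_bijective_of_injective
    (S.d (m + 1)).hom (S.a (m + 1)).hom (S.b (m + 1)).hom (S.d m).hom
    (S'.d (m + 1)).hom (S'.a (m + 1)).hom (S'.b (m + 1)).hom (S'.d m).hom
    (T.reg n (m + 1 + 1) U).hom (T.reg n (m + 1) Z).hom (T.reg n (m + 1) X).hom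
    (T.reg n (m + 1) U).hom (T.reg n m Z).hom
    (comm_fun (H.comm_d (m + 1))) (comm_fun (H.comm_a (m + 1))) (comm_fun (H.comm_b (m + 1)))
    (comm_fun (H.comm_d m))
    (S.exact_da (m + 1)) (S.exact_ab (m + 1)) (S.exact_bd m)
    (S'.exact_da (m + 1)) (S'.exact_ab (m + 1)) (S'.exact_bd m)
    (hU _).2 (hZ _) (hU _) (hZ _).1

lemma in_closed (h : IsRegulator T) (hX : FT True X) (ht : IsTriple i j)
    (hX' : BijectiveIn T n X) (hU : BijectiveIn T n U) : BijectiveIn T n Z := by
  intro k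
  obtain ⟨S, S', H⟩ := h.localization n i j hX ht
  exact LinearMap.bijective_of_surjective_of_bijective_of_bijective_of_injective
    (S.b (k + 1)).hom (S.d k).hom (S.a k).hom (S.b k).hom
    (S'.b (k + 1)).hom (S'.d k).hom (S'.a k).hom (S'.b k).hom
    (T.reg n (k + 1) X).hom (T.reg n (k + 1) U).hom (T.reg n k Z).hom
    (T.reg n k X).hom (T.reg n k U).hom
    (comm_fun (H.comm_b (k + 1))) (comm_fun (H.comm_d k)) (comm_fun (H.comm_a k))
    (comm_fun (H.comm_b k))
    (S.exact_bd k) (S.exact_da k) (S.exact_ab k)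
    (S'.exact_bd k) (S'.exact_da k) (S'.exact_ab k)
    (hX' _).2 (hU _) (hX' _) (hU _).1

lemma in_opened (h : IsRegulator T) (hX : FT True X) (ht : IsTriple i j)
    (hZ : BijectiveIn T n Z) (hX' : BijectiveIn T n X) : BijectiveIn T n U := by
  intro k
  obtain ⟨S, S', H⟩ := h.localization n i j hX ht
  obtain ⟨m, rfl⟩ : ∃ m, k = m + 1 := ⟨k - 1, by ring⟩
  exact LinearMap.bijective_of_surjective_of_bijective_of_bijective_of_injective
    (S.a (m + 1)).hom (S.b (m + 1)).hom (S.d m).hom (S.a m).hom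
    (S'.a (m + 1)).hom (S'.b (m + 1)).hom (S'.d m).hom (S'.a m).hom
    (T.reg n (m + 1) Z).hom (T.reg n (m + 1) X).hom (T.reg n (m + 1) U).hom
    (T.reg n m Z).hom (T.reg n m X).hom
    (comm_fun (H.comm_a (m + 1))) (comm_fun (H.comm_b (m + 1))) (comm_fun (H.comm_d m))
    (comm_fun (H.comm_a m))
    (S.exact_ab (m + 1)) (S.exact_bd m) (S.exact_da m)
    (S'.exact_ab (m + 1)) (S'.exact_bd m) (S'.exact_da m)
    (hZ _).2 (hX' _) (hZ _) (hX' _).1

end triple

/-- equivalent schemes -/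
theorem equivalent_iff (h : IsRegulator T) {N : ℕ} (hN : ForDimension N (AllBijective T))
    {X Y : Sch ℤ} (e : Equivalent N X Y) {n : ℤ} (hn : n ≤ 0) :
    BijectiveIn T n X ↔ BijectiveIn T n Y := by
  induction e with
  | @iso X Y hX hY e =>
    exact forall_congr' fun i => bij_iso (h.iso n i hX e)
  | symm _ ih => exact ih.symm
  | trans _ _ ih1 ih2 => exact ih1.trans ih2
  | @opened Z X U i j hX ht hZ =>
    have hZ' : BijectiveIn T n Z := built h hN hZ n hn
    exact ⟨fun h1 => in_opened h hX ht hZ' h1, fun h1 => in_total h hX ht hZ' h1⟩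
  | @closed Z X U i j hX ht hU =>
    have hU' : BijectiveIn T n U := built h hN hU n hn
    exact ⟨fun h1 => in_closed h hX ht h1 hU', fun h1 => in_total h hX ht h1 hU'⟩

lemma bij_of_sub {M N : Type*} (f : M → N) (hM : Subsingleton M) (hN : Subsingleton N)
    (m : M) : Function.Bijective f :=
  ⟨fun _ _ _ => Subsingleton.elim _ _, fun _ => ⟨m, Subsingleton.elim _ _⟩⟩

/-- kernels of two functionals -/
lemma ker_eq {V : Type*} [AddCommGroup V] [Module ℝ V] (g g' : V →ₗ[ℝ] ℝ)
    (hg : Function.Surjective g) (hg' : Function.Surjective g') (h : ∀ x, g x = 0 → g' x = 0)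
    (x : V) (hx : g' x = 0) : g x = 0 := by
  obtain ⟨e, he⟩ := hg 1
  have key : ∀ y, g' y = g y * g' e := by
    intro y
    have h1 : g (y - g y • e) = 0 := by
      rw [map_sub, map_smul, he, smul_eq_mul, mul_one, sub_self]
    have h2 := h _ h1
    rw [map_sub, map_smul, smul_eq_mul] at h2
    linarith
  have he' : g' e ≠ 0 := by
    intro h0
    obtain ⟨y, hy⟩ := hg' 1
    rw [key y, h0, mul_zero] at hy
    exact zero_ne_one hy
  have h3 := key x
  rw [hx] at h3
  exact (mul_eq_zero.mp h3.symm).resolve_right he'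

/-- Q1 and Flach's injectivity mean that the regulators of weight zero are isomorphisms. -/
theorem weight_zero (h : IsRegulator T) {F : GenericFibre T} (hF : IsGenericFibre F) {X : Sch ℤ}
    (hX : IsArithmetic X) : BijectiveIn T 0 X ↔ (Beilinson F X ∧ Flach F X) := by
  obtain ⟨h1, g', g1, g2, g3⟩ := h.deligne X hX
  have hr : ∀ (i : ℕ) (x : T.M 0 (i + 1) X),
      (F.rho i X).hom ((F.res i X).hom x) = (T.nat i X).hom ((T.reg 0 (i + 1) X).hom x) := by
    intro i x
    have := congrArg (fun f => (ModuleCat.Hom.hom f) x) (hF.comp X hX i)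
    exact this
  have hint : ∀ (i : ℕ) (x : T.M 0 (i + 1) X), (F.res i X).hom x ∈ integralPart F i X :=
    fun i x => ⟨x, rfl⟩
  constructor
  · intro hb
    have hfl : Flach F X := by
      intro i x y hxy
      refine (hb (i + 1)).1 ?_
      have hn : Function.Injective (T.nat i X).hom := by
        rcases Nat.eq_zero_or_pos i with rfl | hi
        · exact g1
        · exact (h1 i hi).1
      refine hn ?_
      rw [← hr, ← hr, hxy]
    have hinj : ∀ i, Function.Injective (rhoInfinity F i X) := by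
      rintro i ⟨_, x, rfl⟩ ⟨_, y, rfl⟩ hxy
      have hxy' : (F.rho i X).hom ((F.res i X).hom x) = (F.rho i X).hom ((F.res i X).hom y) := hxy
      rw [hr, hr] at hxy'
      have hn : Function.Injective (T.nat i X).hom := by
        rcases Nat.eq_zero_or_pos i with rfl | hi
        · exact g1
        · exact (h1 i hi).1
      have := (hb (i + 1)).1 (hn hxy')
      subst this
      rfl
    refine ⟨⟨fun i hi => ⟨hinj i, ?_⟩, g', hinj 0, ?_, g3⟩, hfl⟩
    · intro z
      obtain ⟨y, rfl⟩ := (h1 i hi).2 z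
      obtain ⟨x, rfl⟩ := (hb (i + 1)).2 y
      exact ⟨⟨_, hint i x⟩, hr i x⟩
    · intro z
      rw [g2 z]
      constructor
      · rintro ⟨y, rfl⟩
        obtain ⟨x, rfl⟩ := (hb (((0 : ℕ) : ℤ) + 1)).2 y
        exact ⟨⟨_, hint 0 x⟩, hr 0 x⟩
      · rintro ⟨⟨_, x, rfl⟩, rfl⟩
        exact ⟨(T.reg 0 (((0 : ℕ) : ℤ) + 1) X).hom x, (hr 0 x).symm⟩
  · rintro ⟨⟨hB, g, b1, b2, b3⟩, hfl⟩
    intro k
    by_cases hk : k ≤ 0
    · obtain ⟨s1, s2⟩ := hF.zero X hX k hk
      exact bij_of_sub _ s1 s2 0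
    obtain ⟨i, rfl⟩ : ∃ i : ℕ, k = i + 1 := ⟨(k - 1).toNat, by omega⟩
    have hinj : ∀ i : ℕ, Function.Injective (rhoInfinity F i X) := by
      intro i
      rcases Nat.eq_zero_or_pos i with rfl | hi
      · exact b1
      · exact (hB i hi).1
    have hreg : Function.Injective (T.reg 0 (i + 1) X).hom := by
      intro x y hxy
      apply hfl i
      have h3 : rhoInfinity F i X ⟨_, hint i x⟩ = rhoInfinity F i X ⟨_, hint i y⟩ := by
        change (F.rho i X).hom ((F.res i X).hom x) = (F.rho i X).hom ((F.res i X).hom y)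
        rw [hr, hr, hxy]
      exact congrArg Subtype.val (hinj i h3)
    refine ⟨hreg, ?_⟩
    rcases Nat.eq_zero_or_pos i with rfl | hi
    · intro y
      have h4 : ∀ x, g x = 0 → g' x = 0 := by
        intro x hx
        obtain ⟨⟨_, z, rfl⟩, rfl⟩ := (b2 x).mp hx
        rw [g2]
        exact ⟨_, (hr 0 z).symm⟩
      have h5 : g' ((T.nat 0 X).hom y) = 0 := (g2 _).mpr ⟨y, rfl⟩
      have h6 := ker_eq g g' b3 g3 h4 _ h5
      obtain ⟨⟨_, z, rfl⟩, hz⟩ := (b2 _).mp h6
      refine ⟨z, g1 ?_⟩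
      rw [← hr]
      exact hz
    · intro y
      obtain ⟨⟨_, z, rfl⟩, hz⟩ := (hB i hi).2 ((T.nat i X).hom y)
      refine ⟨z, (h1 i hi).1 ?_⟩
      rw [← hr]
      exact hz

end Pool.Agent.U738.RI
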